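import Mathlib

/-! Helper file: Young diagrams all of whose symplectic contents are nonzero. -/

namespace Pool.Agent.T6.H76.SpContents

open Finset

/-- zero-indexed symplectic content -/
def cs (μ : YoungDiagram) (i j : ℕ) : ℤ :=
  if j < i then (μ.rowLen i : ℤ) + μ.rowLen j - i - j
  else (i : ℤ) + j + 2 - μ.colLen i - μ.colLen j

/-- zero-indexed hook length -/
def hk (μ : YoungDiagram) (i j : ℕ) : ℤ :=
  (μ.rowLen i : ℤ) + μ.colLen j - i - j - 1

/-- column length exceeds row length by one along the diagonal -/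
def good (μ : YoungDiagram) : Prop :=
  ∀ i, (i, i) ∈ μ → μ.colLen i = μ.rowLen i + 1

theorem cell_iff (μ : YoungDiagram) (i j : ℕ) : j < μ.rowLen i ↔ i < μ.colLen j := by
  rw [← YoungDiagram.mem_iff_lt_rowLen, YoungDiagram.mem_iff_lt_colLen]

/-- every integer is of the form `r k - k` or `j + 1 - c j` -/
theorem cover (μ : YoungDiagram) (z : ℤ) :
    (∃ k : ℕ, (μ.rowLen k : ℤ) - k = z) ∨ (∃ j : ℕ, (j : ℤ) + 1 - μ.colLen j = z) := by
  have hex : ∃ k : ℕ, (μ.rowLen k : ℤ) - k ≤ z := by
    refine ⟨μ.rowLen 0 + (-z).toNat, ?_⟩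
    have h1 : μ.rowLen (μ.rowLen 0 + (-z).toNat) ≤ μ.rowLen 0 := μ.rowLen_anti _ _ (Nat.zero_le _)
    omega
  classical
  obtain ⟨hk1, hk2⟩ := Nat.find_spec hex, fun m (hm : m < Nat.find hex) => Nat.find_min hex hm
  set k := Nat.find hex with hkdef
  by_cases heq : (μ.rowLen k : ℤ) - k = z
  · exact Or.inl ⟨k, heq⟩
  right
  have hlt : (μ.rowLen k : ℤ) - k < z := lt_of_le_of_ne (Nat.find_spec hex) heq
  have hnn : 0 ≤ z + k - 1 := by
    have : (0 : ℤ) ≤ μ.rowLen k := Int.natCast_nonneg _
    omega
  obtain ⟨j, hj⟩ := Int.eq_ofNat_of_zero_le hnn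
  refine ⟨j, ?_⟩
  have h1 : ¬ (k < μ.colLen j) := by
    rw [← cell_iff]
    omega
  have h2 : μ.colLen j = k := by
    by_contra hne
    have h3 : μ.colLen j < k := by omega
    have h4 : k - 1 < k := by omega
    have h5 := Nat.find_min hex h4
    have h6 : k - 1 < μ.colLen j := by
      rw [← cell_iff]
      push_cast [Nat.cast_sub (by omega : 1 ≤ k)] at h5
      omega
    omega
  rw [h2]
  omega

theorem good_of_ne (μ : YoungDiagram) (h : ∀ i j, (i, j) ∈ μ → cs μ i j ≠ 0) : good μ := by
  by_contra hng
  unfold good at hng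
  push Not at hng
  obtain ⟨i0, hi0, hi0'⟩ := hng
  -- pick the largest bad index
  classical
  let P : ℕ → Prop := fun i => (i, i) ∈ μ ∧ μ.colLen i ≠ μ.rowLen i + 1
  have hPb : ∀ i, P i → i ≤ μ.rowLen 0 := by
    intro i hi
    have h1 : (0, i) ∈ μ := μ.up_left_mem (Nat.zero_le _) le_rfl hi.1
    rw [YoungDiagram.mem_iff_lt_rowLen] at h1
    exact h1.le
  have hP0 : P i0 := ⟨hi0, hi0'⟩
  set i := Nat.findGreatest P (μ.rowLen 0) with hidef
  have hPi : P i := Nat.findGreatest_spec (hPb i0 hP0) hP0
  have hmax : ∀ k, i < k → (k, k) ∈ μ → μ.colLen k = μ.rowLen k + 1 := by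
    intro k hk hkm
    by_contra hne
    have hPk : P k := ⟨hkm, hne⟩
    have := Nat.le_findGreatest (hPb k hPk) hPk
    omega
  obtain ⟨him, hine⟩ := hPi
  have hri : i < μ.rowLen i := YoungDiagram.mem_iff_lt_rowLen.1 him
  have hci : i < μ.colLen i := YoungDiagram.mem_iff_lt_colLen.1 him
  rcases lt_or_gt_of_ne hine with hlt | hgt
  · -- c i ≤ r i
    by_cases hb0 : μ.colLen i = i + 1
    · refine h i i him ?_
      unfold cs
      rw [if_neg (lt_irrefl i), hb0]
      push_cast
      ring
    rcases cover μ ((μ.colLen i : ℤ) - i - 1) with ⟨k, hk⟩ | ⟨j, hj⟩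
    · -- b = r k - k
      have hkr : k < μ.rowLen k := by omega
      have hkm : (k, k) ∈ μ := YoungDiagram.mem_iff_lt_rowLen.2 hkr
      have hik : i < k := by
        by_contra hle
        push Not at hle
        have := μ.rowLen_anti k i hle
        omega
      have h1 := hmax k hik hkm
      have h2 := μ.colLen_anti i k hik.le
      omega
    · -- b = j + 1 - c j
      have hji : j < μ.colLen i := by
        have : (0 : ℤ) ≤ μ.colLen j := Int.natCast_nonneg _
        by_contra hle
        push Not at hle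
        -- j ≥ c i: then c j = j + 1 - c i + i + 1 ≥ i + 2 so i < c j so j < r i
        have h1 : i + 2 ≤ μ.colLen j + (μ.colLen i - j) := by omega
        have h2 : i < μ.colLen j := by omega
        have h3 : j < μ.rowLen i := (cell_iff μ i j).2 h2
        refine h i j (YoungDiagram.mem_iff_lt_rowLen.2 h3) ?_
        unfold cs
        rw [if_neg (by omega)]
        omega
      by_cases hij : i ≤ j
      · have h3 : j < μ.rowLen i := by omega
        refine h i j (YoungDiagram.mem_iff_lt_rowLen.2 h3) ?_
        unfold cs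
        rw [if_neg (by omega)]
        omega
      · have h2 := μ.colLen_anti j i (by omega)
        omega
  · -- c i ≥ r i + 2
    rcases cover μ (-((μ.rowLen i : ℤ) - i)) with ⟨k, hk⟩ | ⟨j, hj⟩
    · -- k - r k = s
      have hik : i < k := by
        by_contra hle
        push Not at hle
        have := μ.rowLen_anti k i hle
        omega
      have hkc : k < μ.colLen i := by
        by_contra hle
        push Not at hle
        have h1 : i < μ.rowLen k := by omega
        have h2 := (cell_iff μ k i).1 h1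
        omega
      refine h k i (YoungDiagram.mem_iff_lt_colLen.2 hkc) ?_
      unfold cs
      rw [if_pos hik]
      omega
    · have hjc : j < μ.colLen j := by omega
      have hjm : (j, j) ∈ μ := YoungDiagram.mem_iff_lt_colLen.2 hjc
      have hij : i < j := by
        by_contra hle
        push Not at hle
        have := μ.colLen_anti j i hle
        omega
      have h1 := hmax j hij hjm
      have h2 := μ.rowLen_anti i j hij.le
      omega

theorem cs_eq_of_good {μ : YoungDiagram} (hg : good μ) {i j : ℕ} (hm : (i, j) ∈ μ) :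
    cs μ i j ^ 2 = hk μ i j ^ 2 := by
  unfold cs hk
  split_ifs with hji
  · have hjj : (j, j) ∈ μ := μ.up_left_mem hji.le le_rfl hm
    have := hg j hjj
    rw [this]
    push_cast
    ring
  · have hii : (i, i) ∈ μ := μ.up_left_mem le_rfl (by omega) hm
    have := hg i hii
    rw [this]
    push_cast
    ring

theorem hk_pos {μ : YoungDiagram} {i j : ℕ} (hm : (i, j) ∈ μ) : 0 < hk μ i j := by
  have h1 : j < μ.rowLen i := YoungDiagram.mem_iff_lt_rowLen.1 hm
  have h2 : i < μ.colLen j := YoungDiagram.mem_iff_lt_colLen.1 hm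
  unfold hk
  omega

theorem prod_eq (μ : YoungDiagram) [Decidable (good μ)] :
    ∏ u ∈ μ.cells, ((cs μ u.1 u.2 : ℚ) / (hk μ u.1 u.2 : ℚ)) ^ 2 = if good μ then 1 else 0 := by
  split_ifs with hg
  · refine Finset.prod_eq_one fun u hu => ?_
    have hu' : (u.1, u.2) ∈ μ := hu
    have h1 := cs_eq_of_good hg hu'
    have h2 := hk_pos hu'
    have h3 : ((hk μ u.1 u.2 : ℤ) : ℚ) ≠ 0 := by exact_mod_cast h2.ne'
    rw [div_pow, div_eq_one_iff_eq (pow_ne_zero 2 h3)]
    exact_mod_cast h1
  · by_contra hne
    apply hg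
    apply good_of_ne
    intro i j hij h0
    apply hne
    refine Finset.prod_eq_zero (i := (i, j)) hij ?_
    simp [h0]

/-- the number of elements of `s` above `x` -/
def N (s : Finset ℕ) (x : ℕ) : ℕ := (s.filter (fun t => x < t)).card

theorem N_anti (s : Finset ℕ) {x y : ℕ} (h : x ≤ y) : N s y ≤ N s x := by
  apply Finset.card_le_card
  intro t ht
  rw [mem_filter] at ht ⊢
  exact ⟨ht.1, lt_of_le_of_lt h ht.2⟩

theorem N_succ_le (s : Finset ℕ) (x : ℕ) : N s x ≤ N s (x + 1) + 1 := by
  have : s.filter (fun t => x < t) ⊆ insert (x + 1) (s.filter (fun t => x + 1 < t)) := by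
    intro t ht
    rw [mem_filter] at ht
    rw [mem_insert, mem_filter]
    by_cases h : t = x + 1
    · exact Or.inl h
    · exact Or.inr ⟨ht.1, by omega⟩
  exact (Finset.card_le_card this).trans (Finset.card_insert_le _ _)

theorem N_add_le (s : Finset ℕ) (x k : ℕ) : N s x ≤ N s (x + k) + k := by
  induction k with
  | zero => simp
  | succ k ih =>
    have := N_succ_le s (x + k)
    have h2 : x + (k + 1) = x + k + 1 := by ring
    rw [h2]
    omega

theorem N_large (s : Finset ℕ) {x : ℕ} (h : s.sup id ≤ x) : N s x = 0 := by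
  unfold N
  rw [Finset.card_eq_zero, Finset.filter_eq_empty_iff]
  intro t ht
  have : t ≤ s.sup id := Finset.le_sup (f := id) ht
  omega

theorem sum_N (s : Finset ℕ) : ∑ x ∈ range (s.sup id), N s x = ∑ t ∈ s, t := by
  unfold N
  simp_rw [Finset.card_filter]
  rw [Finset.sum_comm]
  refine Finset.sum_congr rfl fun t ht => ?_
  rw [← Finset.card_filter]
  have : (range (s.sup id)).filter (fun x => x < t) = range t := by
    ext x
    rw [mem_filter, mem_range, mem_range]
    have : t ≤ s.sup id := Finset.le_sup (f := id) ht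
    omega
  rw [this, card_range]

theorem succ_mem_iff (s : Finset ℕ) (t : ℕ) : t + 1 ∈ s ↔ N s (t + 1) < N s t := by
  constructor
  · intro h
    apply Finset.card_lt_card
    rw [Finset.ssubset_iff_of_subset]
    · exact ⟨t + 1, by simp [h], by simp⟩
    · intro u hu
      rw [mem_filter] at hu ⊢
      exact ⟨hu.1, by omega⟩
  · intro h
    by_contra hn
    have : s.filter (fun u => t < u) = s.filter (fun u => t + 1 < u) := by
      apply Finset.filter_congr
      intro u hu
      constructor
      · intro h1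
        rcases Nat.lt_or_ge (t + 1) u with h2 | h2
        · exact h2
        · exfalso
          have : u = t + 1 := by omega
          exact hn (this ▸ hu)
      · intro h1
        omega
    unfold N at h
    rw [this] at h
    exact lt_irrefl _ h

/-- upper cells `(i, i + x)` with `i < N s x` -/
def upperCells (s : Finset ℕ) : Finset (ℕ × ℕ) :=
  ((range (s.sup id)).sigma (fun x => range (N s x))).image (fun p => (p.2, p.2 + p.1))

/-- lower cells `(i + x + 1, i)` with `i < N s x` -/
def lowerCells (s : Finset ℕ) : Finset (ℕ × ℕ) :=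
  ((range (s.sup id)).sigma (fun x => range (N s x))).image (fun p => (p.2 + p.1 + 1, p.2))

theorem mem_upper {s : Finset ℕ} {a b : ℕ} :
    (a, b) ∈ upperCells s ↔ a ≤ b ∧ a < N s (b - a) := by
  unfold upperCells
  simp only [mem_image, mem_sigma, mem_range, Sigma.exists, Prod.mk.injEq]
  constructor
  · rintro ⟨x, i, ⟨hx, hi⟩, rfl, rfl⟩
    exact ⟨by omega, by simpa using hi⟩
  · rintro ⟨hab, hN⟩
    refine ⟨b - a, a, ⟨?_, hN⟩, rfl, by omega⟩
    by_contra hle
    push Not at hle
    rw [N_large s hle] at hN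
    omega

theorem mem_lower {s : Finset ℕ} {a b : ℕ} :
    (a, b) ∈ lowerCells s ↔ b < a ∧ b < N s (a - b - 1) := by
  unfold lowerCells
  simp only [mem_image, mem_sigma, mem_range, Sigma.exists, Prod.mk.injEq]
  constructor
  · rintro ⟨x, i, ⟨hx, hi⟩, rfl, rfl⟩
    refine ⟨by omega, ?_⟩
    have : i + x + 1 - i - 1 = x := by omega
    rw [this]
    exact hi
  · rintro ⟨hab, hN⟩
    refine ⟨a - b - 1, b, ⟨?_, hN⟩, by omega, rfl⟩
    by_contra hle
    push Not at hle
    rw [N_large s hle] at hN
    omega

theorem card_upper (s : Finset ℕ) : (upperCells s).card = ∑ t ∈ s, t := by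
  unfold upperCells
  rw [Finset.card_image_of_injOn, Finset.card_sigma]
  · simp only [card_range]
    exact sum_N s
  · rintro ⟨x, i⟩ _ ⟨y, j⟩ _ h
    simp only [Prod.mk.injEq] at h
    obtain ⟨h1, h2⟩ := h
    subst h1
    have : x = y := by omega
    subst this
    rfl

theorem card_lower (s : Finset ℕ) : (lowerCells s).card = ∑ t ∈ s, t := by
  unfold lowerCells
  rw [Finset.card_image_of_injOn, Finset.card_sigma]
  · simp only [card_range]
    exact sum_N s
  · rintro ⟨x, i⟩ _ ⟨y, j⟩ _ h
    simp only [Prod.mk.injEq] at h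
    obtain ⟨h1, h2⟩ := h
    subst h2
    have : x = y := by omega
    subst this
    rfl

/-- the good diagram of a finite set -/
def Y (s : Finset ℕ) : YoungDiagram where
  cells := upperCells s ∪ lowerCells s
  isLowerSet := by
    rintro ⟨a, b⟩ ⟨c, d⟩ ⟨hca, hdb⟩ hab
    simp only at hca hdb
    rw [mem_coe, mem_union, mem_upper, mem_lower] at hab ⊢
    rcases hab with ⟨h1, h2⟩ | ⟨h1, h2⟩
    · -- a ≤ b, a < N (b - a)
      by_cases hcd : c ≤ d
      · left
        refine ⟨hcd, ?_⟩
        by_cases hle : d - c ≤ b - a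
        · exact lt_of_lt_of_le (by omega) (N_anti s hle)
        · have h3 := N_add_le s (b - a) (d - c - (b - a))
          have h4 : b - a + (d - c - (b - a)) = d - c := by omega
          rw [h4] at h3
          omega
      · right
        refine ⟨by omega, ?_⟩
        by_cases hle : c - d - 1 ≤ b - a
        · exact lt_of_lt_of_le (by omega) (N_anti s hle)
        · have h3 := N_add_le s (b - a) (c - d - 1 - (b - a))
          have h4 : b - a + (c - d - 1 - (b - a)) = c - d - 1 := by omega
          rw [h4] at h3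
          omega
    · by_cases hcd : c ≤ d
      · left
        refine ⟨hcd, ?_⟩
        by_cases hle : d - c ≤ a - b - 1
        · exact lt_of_lt_of_le (by omega) (N_anti s hle)
        · have h3 := N_add_le s (a - b - 1) (d - c - (a - b - 1))
          have h4 : a - b - 1 + (d - c - (a - b - 1)) = d - c := by omega
          rw [h4] at h3
          omega
      · right
        refine ⟨by omega, ?_⟩
        by_cases hle : c - d - 1 ≤ a - b - 1
        · exact lt_of_lt_of_le (by omega) (N_anti s hle)
        · have h3 := N_add_le s (a - b - 1) (c - d - 1 - (a - b - 1))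
          have h4 : a - b - 1 + (c - d - 1 - (a - b - 1)) = c - d - 1 := by omega
          rw [h4] at h3
          omega

theorem mem_Y {s : Finset ℕ} {a b : ℕ} :
    (a, b) ∈ Y s ↔ (a ≤ b ∧ a < N s (b - a)) ∨ (b < a ∧ b < N s (a - b - 1)) := by
  rw [← mem_upper, ← mem_lower, ← mem_union]
  rfl

theorem card_Y (s : Finset ℕ) : (Y s).card = 2 * ∑ t ∈ s, t := by
  have : (Y s).card = (upperCells s ∪ lowerCells s).card := rfl
  rw [this, Finset.card_union_of_disjoint, card_upper, card_lower]
  · ring
  · rw [Finset.disjoint_left]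
    rintro ⟨a, b⟩ h1 h2
    rw [mem_upper] at h1
    rw [mem_lower] at h2
    omega

theorem shift_Y (s : Finset ℕ) {i j : ℕ} (hij : i ≤ j) : (i, j) ∈ Y s ↔ (j + 1, i) ∈ Y s := by
  rw [mem_Y, mem_Y]
  have h1 : j + 1 - i - 1 = j - i := by omega
  rw [h1]
  constructor
  · rintro (h | h)
    · exact Or.inr ⟨by omega, h.2⟩
    · omega
  · rintro (h | h)
    · omega
    · exact Or.inl ⟨hij, h.2⟩

theorem good_iff_shift (μ : YoungDiagram) :
    good μ ↔ ∀ i j, i ≤ j → ((i, j) ∈ μ ↔ (j + 1, i) ∈ μ) := by
  constructor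
  · intro hg i j hij
    constructor
    · intro h
      have h1 : (i, i) ∈ μ := μ.up_left_mem le_rfl hij h
      have h2 := hg i h1
      have h3 : j < μ.rowLen i := YoungDiagram.mem_iff_lt_rowLen.1 h
      exact YoungDiagram.mem_iff_lt_colLen.2 (by omega)
    · intro h
      have h1 : (i, i) ∈ μ := μ.up_left_mem (by omega) le_rfl h
      have h2 := hg i h1
      have h3 : j + 1 < μ.colLen i := YoungDiagram.mem_iff_lt_colLen.1 h
      exact YoungDiagram.mem_iff_lt_rowLen.2 (by omega)
  · intro hs i hi
    have h1 : i < μ.rowLen i := YoungDiagram.mem_iff_lt_rowLen.1 hi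
    have h2 : (i, μ.rowLen i - 1) ∈ μ := YoungDiagram.mem_iff_lt_rowLen.2 (by omega)
    have h3 := (hs i (μ.rowLen i - 1) (by omega)).1 h2
    rw [YoungDiagram.mem_iff_lt_colLen] at h3
    have h4 : ¬ ((i, μ.rowLen i) ∈ μ) := by
      rw [YoungDiagram.mem_iff_lt_rowLen]
      exact lt_irrefl _
    have h5 : ¬ ((μ.rowLen i + 1, i) ∈ μ) := fun h => h4 ((hs i (μ.rowLen i) h1.le).2 h)
    rw [YoungDiagram.mem_iff_lt_colLen] at h5
    omega

theorem good_Y (s : Finset ℕ) : good (Y s) := by
  rw [good_iff_shift]
  intro i j hij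
  exact shift_Y s hij

theorem N_of_Y {s s' : Finset ℕ} (h : Y s = Y s') (x : ℕ) : N s x = N s' x := by
  have key : ∀ i, i < N s x ↔ i < N s' x := by
    intro i
    have h1 : (i, i + x) ∈ Y s ↔ i < N s x := by
      rw [mem_Y]
      have : i + x - i = x := by omega
      rw [this]
      omega
    have h2 : (i, i + x) ∈ Y s' ↔ i < N s' x := by
      rw [mem_Y]
      have : i + x - i = x := by omega
      rw [this]
      omega
    rw [← h1, ← h2, h]
  have h1 := key (N s x)
  have h2 := key (N s' x)
  omega

theorem Y_inj {s s' : Finset ℕ} (h0 : 0 ∉ s) (h0' : 0 ∉ s') (h : Y s = Y s') : s = s' := by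
  ext t
  rcases t with _ | t
  · exact ⟨fun h => absurd h h0, fun h => absurd h h0'⟩
  · rw [succ_mem_iff, succ_mem_iff, N_of_Y h, N_of_Y h]

/-- the arm set of a diagram -/
def arms (μ : YoungDiagram) : Finset ℕ :=
  ((range (μ.rowLen 0)).filter (fun i => (i, i) ∈ μ)).image (fun i => μ.rowLen i - i)

theorem zero_notMem_arms (μ : YoungDiagram) : 0 ∉ arms μ := by
  unfold arms
  rw [mem_image]
  rintro ⟨i, hi, h⟩
  rw [mem_filter, YoungDiagram.mem_iff_lt_rowLen] at hi
  omega

theorem N_arms (μ : YoungDiagram) (x i : ℕ) : i < N (arms μ) x ↔ (i, i + x) ∈ μ := by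
  -- the set of `i` with `(i, i + x) ∈ μ` is a range
  have hset : (arms μ).filter (fun t => x < t) =
      ((range (μ.rowLen 0)).filter (fun i => (i, i + x) ∈ μ)).image (fun i => μ.rowLen i - i) := by
    ext t
    unfold arms
    simp only [mem_filter, mem_image, mem_range]
    constructor
    · rintro ⟨⟨k, ⟨hk1, hk2⟩, rfl⟩, hx⟩
      exact ⟨k, ⟨hk1, YoungDiagram.mem_iff_lt_rowLen.2 (by omega)⟩, rfl⟩
    · rintro ⟨k, ⟨hk1, hk2⟩, rfl⟩
      have h3 := YoungDiagram.mem_iff_lt_rowLen.1 hk2
      exact ⟨⟨k, ⟨hk1, YoungDiagram.mem_iff_lt_rowLen.2 (by omega)⟩, rfl⟩, by omega⟩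
  have hcard : N (arms μ) x = ((range (μ.rowLen 0)).filter (fun i => (i, i + x) ∈ μ)).card := by
    unfold N
    rw [hset, Finset.card_image_of_injOn]
    intro k hk l hl hkl
    simp only [coe_filter, Set.mem_ofPred_eq, mem_range] at hk hl
    simp only at hkl
    have h1 := YoungDiagram.mem_iff_lt_rowLen.1 hk.2
    have h2 := YoungDiagram.mem_iff_lt_rowLen.1 hl.2
    rcases lt_trichotomy k l with h | h | h
    · have := μ.rowLen_anti k l h.le
      omega
    · exact h
    · have := μ.rowLen_anti l k h.le
      omega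
  -- the filter is a lower set
  have hmem : ∀ k, k ∈ (range (μ.rowLen 0)).filter (fun i => (i, i + x) ∈ μ) ↔ (k, k + x) ∈ μ := by
    intro k
    rw [mem_filter, mem_range]
    constructor
    · exact fun h => h.2
    · intro h
      refine ⟨?_, h⟩
      have h1 : (0, k + x) ∈ μ := μ.up_left_mem (Nat.zero_le _) le_rfl h
      have := YoungDiagram.mem_iff_lt_rowLen.1 h1
      omega
  have hlow : ∀ k l, l ≤ k → (k, k + x) ∈ μ → (l, l + x) ∈ μ := by
    intro k l hlk h
    exact μ.up_left_mem hlk (by omega) h
  rw [hcard]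
  constructor
  · intro hi
    by_contra hn
    have hsub : (range (μ.rowLen 0)).filter (fun i => (i, i + x) ∈ μ) ⊆ range i := by
      intro k hk
      rw [hmem] at hk
      rw [mem_range]
      by_contra hle
      exact hn (hlow k i (by omega) hk)
    have := Finset.card_le_card hsub
    rw [card_range] at this
    omega
  · intro hi
    have hsub : range (i + 1) ⊆ (range (μ.rowLen 0)).filter (fun i => (i, i + x) ∈ μ) := by
      intro k hk
      rw [hmem]
      rw [mem_range] at hk
      exact hlow i k (by omega) hi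
    have := Finset.card_le_card hsub
    rw [card_range] at this
    omega

theorem Y_arms {μ : YoungDiagram} (hg : good μ) : Y (arms μ) = μ := by
  rw [good_iff_shift] at hg
  refine SetLike.ext ?_
  rintro ⟨a, b⟩
  rw [mem_Y, N_arms, N_arms]
  constructor
  · rintro (⟨h1, h2⟩ | ⟨h1, h2⟩)
    · have : a + (b - a) = b := by omega
      rwa [this] at h2
    · have : b + (a - b - 1) = a - 1 := by omega
      rw [this] at h2
      have h3 := (hg b (a - 1) (by omega)).1 h2
      have : a - 1 + 1 = a := by omega
      rwa [this] at h3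
  · intro h
    by_cases hab : a ≤ b
    · left
      refine ⟨hab, ?_⟩
      have : a + (b - a) = b := by omega
      rwa [this]
    · right
      refine ⟨by omega, ?_⟩
      have h1 : b + (a - b - 1) = a - 1 := by omega
      rw [h1]
      apply (hg b (a - 1) (by omega)).2
      have : a - 1 + 1 = a := by omega
      rwa [this]

end Pool.Agent.T6.H76.SpContents
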